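import Pool.Agent.H3.OD.Targets
import Pool.Agent.H27.LV.Curve

/-!
# MP_70ba79_ag, board `ode2_modules`: row BRD

The embedding in the field of Hahn series commutes with the derivations.
-/

set_option autoImplicit false

namespace Pool.Agent.H17.OD2

open MvPolynomial SC Pool.Agent.H92.OD Pool.Agent.H3.OD

/-- a derivation along `φ` which vanishes on `E` is zero if `K` is separable over `E` -/
theorem der_zero {E K H : Type} [Field E] [Field K] [Field H] [Algebra E K]
    [Algebra.IsSeparable E K] (φ : K →+* H) (Δ : K → H) (ha : ∀ a b, Δ (a + b) = Δ a + Δ b)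
    (hm : ∀ a b, Δ (a * b) = φ a * Δ b + φ b * Δ a) (hE : ∀ e : E, Δ (algebraMap E K e) = 0)
    (z : K) : Δ z = 0 := by
  have hun : Algebra.FormallyUnramified E K := Algebra.FormallyUnramified.of_isSeparable E K
  let i1 : Algebra K H := φ.toAlgebra
  let i2 : Algebra E H := (φ.comp (algebraMap E K)).toAlgebra
  have i3 : IsScalarTower E K H := IsScalarTower.of_algebraMap_eq fun _ => rfl
  have hs : ∀ (a : K) (b : H), a • b = φ a * b := fun a b => Algebra.smul_def a b
  let D' : Derivation E K H := Derivation.mk'
    { toFun := Δ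
      map_add' := ha
      map_smul' := fun e w => by
        rw [Algebra.smul_def, hm, hE, mul_zero, add_zero, RingHom.id_apply, Algebra.smul_def]
        rfl } (fun a b => by
        rw [hs, hs]
        exact hm a b)
  have h0 : D' = 0 := by
    have h1 : D'.liftKaehlerDifferential = 0 := Subsingleton.elim _ _
    have h2 := D'.liftKaehlerDifferential_comp
    rw [h1] at h2
    ext w
    rw [← h2]
    rfl
  have h3 : Δ z = D' z := rfl
  rw [h3, h0]
  rfl

theorem pf_BRD : T_BRD := by
  intro k K _ _ _ _ _ _ htr φ u hu D hD z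
  have hut : Transcendental k u := by
    intro halg
    have hint : IsIntegral k u := halg.isIntegral
    have h1 : (minpoly k u).degree = 1 := IsAlgClosed.degree_eq_one_of_irreducible k
      (minpoly.irreducible hint)
    obtain ⟨c, hc⟩ := minpoly.mem_range_of_degree_eq_one k u h1
    have h2 : φ u = algebraMap k (HS k) c := by rw [← hc, φ.commutes]
    have h3 : DF (φ u) = 0 := by
      have h4 := (DD (R := k) k).map_algebraMap c
      rw [h2]
      exact h4
    rw [hu, DF_uu] at h3
    have h5 : cf (uu k) 1 = 0 := by rw [h3, cf_zero]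
    unfold uu at h5
    rw [cf_sg, if_pos rfl] at h5
    exact one_ne_zero h5
  have hfd := Pool.Agent.H36.SC.fin_of_transc htr hut
  obtain ⟨E, hE⟩ : ∃ E, E = IntermediateField.adjoin k {u} := ⟨_, rfl⟩
  rw [← hE] at hfd
  have hcz : CharZero E := charZero_of_injective_algebraMap (algebraMap k E).injective
  have hsep : Algebra.IsSeparable E K := inferInstance
  have hadd : ∀ a b, φ (D (a + b)) - DF (φ (a + b)) =
      (φ (D a) - DF (φ a)) + (φ (D b) - DF (φ b)) := by
    intro a b
    rw [map_add, map_add, map_add, DF_add]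
    ring
  have hmul : ∀ a b, φ (D (a * b)) - DF (φ (a * b)) =
      φ a * (φ (D b) - DF (φ b)) + φ b * (φ (D a) - DF (φ a)) := by
    intro a b
    rw [D.leibniz, map_mul, DF_mul, map_add, smul_eq_mul, smul_eq_mul, map_mul, map_mul]
    ring
  have hEz : ∀ e ∈ E, φ (D e) - DF (φ e) = 0 := by
    intro e he
    rw [hE] at he
    induction he using IntermediateField.adjoin_induction with
    | mem w hw => rw [Set.mem_singleton_iff.1 hw, hD, hu, DF_uu, sub_self]
    | algebraMap c =>
      have h4 := (DD (R := k) k).map_algebraMap c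
      have h5 : DF (algebraMap k (HS k) c) = 0 := h4
      rw [D.map_algebraMap, map_zero, φ.commutes, h5, sub_self]
    | add w w' _ _ h1 h2 => rw [hadd, h1, h2, add_zero]
    | mul w w' _ _ h1 h2 => rw [hmul, h1, h2, mul_zero, mul_zero, add_zero]
    | inv w _ h1 =>
      by_cases hw : w = 0
      · rw [hw, inv_zero, ← h1, hw]
      · have h2 := hmul w w⁻¹
        rw [mul_inv_cancel₀ hw, h1, mul_zero, add_zero] at h2
        have h3 : φ (D (1 : K)) - DF (φ 1) = 0 := by
          have h4 := (DD (R := k) k).map_one_eq_zero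
          have h5 : DF (1 : HS k) = 0 := h4
          rw [D.map_one_eq_zero, map_zero, map_one, h5, sub_self]
        rw [h3] at h2
        exact (mul_eq_zero.1 h2.symm).resolve_left ((map_ne_zero φ).2 hw)
  have h := der_zero (E := E) φ.toRingHom (fun z => φ (D z) - DF (φ z)) hadd hmul
    (fun e => hEz _ e.2) z
  exact sub_eq_zero.1 h

end Pool.Agent.H17.OD2
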