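import Pool.Agent.H92.OD.Targets

/-!
# MP_70ba79_ag, board `ode_modules`: row TRD

Three elements of `k(u, y, D y)` are algebraically dependent.
-/

set_option autoImplicit false

namespace Pool.Agent.H17.OD

open MvPolynomial Filter Pool.Agent.H92.OD Set Cardinal

/-- three elements of a field generated by three algebraically dependent elements are dependent -/
theorem dep3 {k L : Type} [Field k] [Field L] [Algebra k L] (x : Fin 3 → L)
    (hx : ¬ AlgebraicIndependent k x) (w : Fin 3 → L)
    (hw : ∀ i, w i ∈ IntermediateField.adjoin k (range x)) : ¬ AlgebraicIndependent k w := by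
  intro hi
  set E := IntermediateField.adjoin k (range x) with hE
  have hxE : ∀ i, x i ∈ E := fun i => IntermediateField.subset_adjoin k _ ⟨i, rfl⟩
  set x' : Fin 3 → E := fun i => ⟨x i, hxE i⟩ with hx'
  set w' : Fin 3 → E := fun i => ⟨w i, hw i⟩ with hw'
  have hinj : Function.Injective (E.val : E →ₐ[k] L) := E.val.toRingHom.injective
  have e1 : E.val ∘ x' = x := by
    funext i
    rfl
  have e2 : E.val ∘ w' = w := by
    funext i
    rfl
  have hi' : AlgebraicIndependent k w' := by
    rw [← e2] at hi
    exact hi.of_comp E.val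
  have hle : (3 : Cardinal) ≤ Algebra.trdeg k E := by
    have := hi'.cardinalMk_le_trdeg
    rwa [Cardinal.mk_fin] at this
  have halg : Algebra.IsAlgebraic (Algebra.adjoin k (range x')) E := by
    refine ⟨?_⟩
    rintro ⟨e, he⟩
    refine IntermediateField.adjoin_induction k
      (p := fun e he => IsAlgebraic (Algebra.adjoin k (range x')) (⟨e, he⟩ : E))
      ?_ ?_ ?_ ?_ ?_ he
    · rintro _ ⟨i, rfl⟩
      exact isAlgebraic_algebraMap
        (⟨x' i, Algebra.subset_adjoin ⟨i, rfl⟩⟩ : Algebra.adjoin k (range x'))
    · intro c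
      exact isAlgebraic_algebraMap
        (algebraMap k (Algebra.adjoin k (range x')) c)
    · intro a b ha hb h1 h2
      exact h1.add h2
    · intro a ha h1
      exact h1.inv
    · intro a b ha hb h1 h2
      exact h1.mul h2
  have hb : IsTranscendenceBasis k x' :=
    Algebra.IsAlgebraic.isTranscendenceBasis_of_le_trdeg_of_finite k x' (by
      rw [Cardinal.mk_fin]
      exact hle)
  apply hx
  rw [← e1]
  exact hb.1.map' hinj

theorem pf_TRD : T_TRD := by
  intro k L _ _ _ _ D u y hQ a ha b hb c hc
  obtain ⟨Q, hQ0, hQ1⟩ := hQ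
  have hr : range ![u, y, D y] = {u, y, D y} := by
    ext z
    simp only [mem_range, Fin.exists_fin_succ, mem_insert_iff, mem_singleton_iff]
    simp [eq_comm]
  have hx : ¬ AlgebraicIndependent k ![u, y, D y] := by
    intro h
    rw [algebraicIndependent_iff] at h
    exact hQ0 (h Q hQ1)
  have h := dep3 ![u, y, D y] hx ![a, b, c] (by
    rw [hr]
    intro i
    fin_cases i
    · exact ha
    · exact hb
    · exact hc)
  rw [algebraicIndependent_iff] at h
  push Not at h
  obtain ⟨R, h1, h2⟩ := h
  exact ⟨R, h2, h1⟩

end Pool.Agent.H17.OD
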