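import Pool.Agent.H3.OD.Targets
import Pool.Agent.H17.OD.TRD

/-!
# MP_70ba79_ag, board `ode2_modules`: row DEP

Three rational functions on an irreducible surface are algebraically dependent.
-/

set_option autoImplicit false

namespace Pool.Agent.H17.OD2

open MvPolynomial Pool.Agent.H92.OD Pool.Agent.H3.OD

/-- the homogenisation of `R (f / h)` -/
noncomputable def hmg {k : Type} [Field k] (f : Fin 3 → MvPolynomial (Fin 3) k)
    (h R : MvPolynomial (Fin 3) k) : MvPolynomial (Fin 3) k :=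
  ∑ m ∈ R.support, C (R.coeff m) * (∏ i, f i ^ m i) * h ^ (R.totalDegree - ∑ i, m i)

theorem hmg_eval {k K : Type} [Field k] [Field K] [Algebra k K]
    (θ : MvPolynomial (Fin 3) k →ₐ[k] K) (f : Fin 3 → MvPolynomial (Fin 3) k)
    (h R : MvPolynomial (Fin 3) k) (hh : θ h ≠ 0) :
    θ (hmg f h R) = θ h ^ R.totalDegree * aeval (fun i => θ (f i) / θ h) R := by
  unfold hmg
  rw [map_sum, aeval_def, eval₂_eq', Finset.mul_sum]
  refine Finset.sum_congr rfl fun m hm => ?_
  have h1 : ∑ i, m i ≤ R.totalDegree := by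
    have := le_totalDegree hm
    rwa [Finsupp.sum_fintype _ _ (fun _ => rfl)] at this
  have h2 : θ (C (R.coeff m)) = algebraMap k K (R.coeff m) := by
    rw [← MvPolynomial.algebraMap_eq]
    exact θ.commutes _
  have h3 : (∏ i, (θ (f i) / θ h) ^ m i) = (∏ i, θ (f i) ^ m i) / θ h ^ (∑ i, m i) := by
    rw [← Finset.prod_pow_eq_pow_sum, ← Finset.prod_div_distrib]
    exact Finset.prod_congr rfl fun i _ => div_pow _ _ _
  rw [map_mul, map_mul, h2, map_prod, map_pow, pow_sub₀ _ hh h1, h3]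
  simp only [map_pow]
  rw [div_eq_mul_inv]
  ring

theorem pf_DEP : T_DEP := by
  intro k _ P hP f h hPh
  have hpr : Prime P := hP.prime
  have hI : (Ideal.span {P} : Ideal (MvPolynomial (Fin 3) k)).IsPrime :=
    (Ideal.span_singleton_prime hpr.ne_zero).2 hpr
  let A := MvPolynomial (Fin 3) k ⧸ (Ideal.span {P} : Ideal (MvPolynomial (Fin 3) k))
  let Fr := FractionRing A
  let θ : MvPolynomial (Fin 3) k →ₐ[k] Fr :=
    (Algebra.algHom k A Fr).comp (Ideal.Quotient.mkₐ k (Ideal.span {P}))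
  have hθ : ∀ S, θ S = 0 ↔ P ∣ S := by
    intro S
    change algebraMap A Fr (Ideal.Quotient.mk (Ideal.span {P}) S) = 0 ↔ _
    rw [FaithfulSMul.algebraMap_eq_zero_iff, Ideal.Quotient.eq_zero_iff_mem,
      Ideal.mem_span_singleton]
  have hx : ∀ S, aeval (fun i => θ (X i)) S = θ S := by
    intro S
    have : aeval (fun i => θ (X i)) = θ := by
      refine MvPolynomial.algHom_ext fun i => ?_
      rw [aeval_X]
    rw [this]
  have hdep : ¬ AlgebraicIndependent k (fun i => θ (X i)) := by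
    intro hi
    rw [algebraicIndependent_iff] at hi
    exact hpr.ne_zero (hi P (by rw [hx]; exact (hθ P).2 dvd_rfl))
  have hmem : ∀ S, θ S ∈ IntermediateField.adjoin k (Set.range fun i => θ (X i)) := by
    intro S
    rw [← hx]
    have h1 : aeval (fun i => θ (X i)) S ∈ Algebra.adjoin k (Set.range fun i => θ (X i)) := by
      rw [Algebra.adjoin_range_eq_range_aeval]
      exact ⟨S, rfl⟩
    exact IntermediateField.algebra_adjoin_le_adjoin k _ h1
  have hh : θ h ≠ 0 := fun e => hPh ((hθ h).1 e)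
  have hd := Pool.Agent.H17.OD.dep3 (fun i => θ (X i)) hdep (fun i => θ (f i) / θ h)
    (fun i => div_mem (hmem (f i)) (hmem h))
  rw [algebraicIndependent_iff] at hd
  push Not at hd
  obtain ⟨R, hR1, hR0⟩ := hd
  refine ⟨R, hR0, ?_⟩
  have hS : P ∣ hmg f h R := by
    rw [← hθ, hmg_eval θ f h R hh, hR1, mul_zero]
  intro K _ _ x hxP hxh
  obtain ⟨T, hT⟩ := hS
  have h1 := hmg_eval (aeval x) f h R hxh
  rw [hT, map_mul, hxP, zero_mul] at h1
  exact (mul_eq_zero.1 h1.symm).resolve_left (pow_ne_zero _ hxh)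

end Pool.Agent.H17.OD2
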